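import Pool.Agent.MP_6fd87c_lc.H6.Defs

/-! Closure properties of pp-definitions with length bounds. -/

namespace Pool.Agent.MP_6fd87c_lc.H6

variable {A : Type} {Γ : Lang A} {V V' : Type}

/-- Renaming of variables. -/
def Atom.map (σ : V → V') : Atom Γ V → Atom Γ V'
  | .rel i z => .rel i fun j => σ (z j)
  | .eq u v => .eq (σ u) (σ v)

lemma Atom.holds_map (σ : V → V') (x : V' → A) (a : Atom Γ V) :
    (a.map σ).Holds x ↔ a.Holds fun v => x (σ v) := by
  cases a <;> rfl

lemma holds_list (σ : V → V') (x : V' → A) (φ : List (Atom Γ V)) :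
    (∀ a ∈ φ.map (Atom.map σ), a.Holds x) ↔ ∀ a ∈ φ, a.Holds fun v => x (σ v) := by
  simp only [List.forall_mem_map, Atom.holds_map]

lemma DefinedWithin.mono {R : Set (V → A)} {L L' : ℕ} (h : DefinedWithin Γ R L) (hL : L ≤ L') :
    DefinedWithin Γ R L' := by
  obtain ⟨k, φ, h1, h2⟩ := h
  exact ⟨k, φ, h1.trans hL, h2⟩

lemma of_type {R : Set (V → A)} {L : ℕ} (W : Type) [Fintype W] (φ : List (Atom Γ (V ⊕ W)))
    (h1 : Fintype.card W + φ.length ≤ L)
    (h2 : ∀ x, x ∈ R ↔ ∃ y : W → A, ∀ a ∈ φ, a.Holds (Sum.elim x y)) : DefinedWithin Γ R L := by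
  let e := Fintype.equivFin W
  refine ⟨Fintype.card W, φ.map (Atom.map (Sum.map id e)), by simpa using h1, fun x => ?_⟩
  rw [h2]
  simp only [holds_list]
  constructor
  · rintro ⟨y, hy⟩
    refine ⟨fun j => y (e.symm j), ?_⟩
    convert hy using 3
    funext v
    cases v <;> simp
  · rintro ⟨y, hy⟩
    refine ⟨fun w => y (e w), ?_⟩
    convert hy using 3
    funext v
    cases v <;> simp

lemma def_atom (a : Atom Γ V) : DefinedWithin Γ {x | a.Holds x} 1 := by
  refine ⟨0, [a.map Sum.inl], by simp, fun x => ?_⟩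
  simp [Atom.holds_map]

lemma def_univ : DefinedWithin Γ (Set.univ : Set (V → A)) 0 :=
  ⟨0, [], by simp, fun x => by simp⟩

lemma DefinedWithin.comap {R : Set (V → A)} {L : ℕ} (h : DefinedWithin Γ R L) (σ : V → V') :
    DefinedWithin Γ {x : V' → A | (fun v => x (σ v)) ∈ R} L := by
  obtain ⟨k, φ, h1, h2⟩ := h
  refine ⟨k, φ.map (Atom.map (Sum.map σ id)), by simpa using h1, fun x => ?_⟩
  simp only [Set.mem_ofPred_eq, h2, holds_list]
  refine exists_congr fun y => ?_
  have : (fun v => Sum.elim x y (Sum.map σ id v)) = Sum.elim (fun v => x (σ v)) y := by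
    funext v
    cases v <;> simp
  rw [this]

lemma DefinedWithin.inter {R R' : Set (V → A)} {L L' : ℕ} (h : DefinedWithin Γ R L)
    (h' : DefinedWithin Γ R' L') : DefinedWithin Γ (R ∩ R') (L + L') := by
  obtain ⟨k, φ, h1, h2⟩ := h
  obtain ⟨k', φ', h1', h2'⟩ := h'
  refine of_type (Fin k ⊕ Fin k') (φ.map (Atom.map (Sum.map id Sum.inl)) ++
    φ'.map (Atom.map (Sum.map id Sum.inr))) (by simp; omega) fun x => ?_
  simp only [Set.mem_inter_iff, h2, h2', List.forall_mem_append, holds_list]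
  have e1 : ∀ y : Fin k ⊕ Fin k' → A, (fun v => Sum.elim x y (Sum.map id Sum.inl v)) =
      Sum.elim x fun j => y (Sum.inl j) := fun y => by
    funext v
    cases v <;> simp
  have e2 : ∀ y : Fin k ⊕ Fin k' → A, (fun v => Sum.elim x y (Sum.map id Sum.inr v)) =
      Sum.elim x fun j => y (Sum.inr j) := fun y => by
    funext v
    cases v <;> simp
  simp only [e1, e2]
  constructor
  · rintro ⟨⟨y, hy⟩, y', hy'⟩
    exact ⟨Sum.elim y y', hy, hy'⟩
  · rintro ⟨y, hy, hy'⟩
    exact ⟨⟨_, hy⟩, _, hy'⟩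

lemma DefinedWithin.proj {W : Type} [Fintype W] {R : Set (V ⊕ W → A)} {L : ℕ}
    (h : DefinedWithin Γ R L) :
    DefinedWithin Γ {x : V → A | ∃ y : W → A, Sum.elim x y ∈ R} (Fintype.card W + L) := by
  obtain ⟨k, φ, h1, h2⟩ := h
  refine of_type (W ⊕ Fin k) (φ.map (Atom.map (Equiv.sumAssoc V W (Fin k))))
    (by simp; omega) fun x => ?_
  simp only [Set.mem_ofPred_eq, h2, holds_list]
  have e1 : ∀ y : W ⊕ Fin k → A, (fun v => Sum.elim x y (Equiv.sumAssoc V W (Fin k) v)) =
      Sum.elim (Sum.elim x fun w => y (Sum.inl w)) fun j => y (Sum.inr j) := fun y => by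
    funext v
    rcases v with (v | v) | v <;> simp
  simp only [e1]
  constructor
  · rintro ⟨y, y', hy⟩
    exact ⟨Sum.elim y y', hy⟩
  · rintro ⟨y, hy⟩
    exact ⟨_, _, hy⟩

lemma def_biInter {J : Type} (s : Finset J) (R : J → Set (V → A)) (L : ℕ)
    (h : ∀ j ∈ s, DefinedWithin Γ (R j) L) :
    DefinedWithin Γ {x | ∀ j ∈ s, x ∈ R j} (s.card * L) := by
  classical
  induction s using Finset.induction_on with
  | empty => simpa using def_univ
  | insert j s hj ih =>
    have h1 := (h j (Finset.mem_insert_self _ _)).inter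
      (ih fun i hi => h i (Finset.mem_insert_of_mem hi))
    rw [Finset.card_insert_of_notMem hj, add_mul, one_mul, add_comm]
    convert h1 using 1
    ext x
    simp

lemma def_iInter {J : Type} [Fintype J] (R : J → Set (V → A)) (L : ℕ)
    (h : ∀ j, DefinedWithin Γ (R j) L) :
    DefinedWithin Γ {x | ∀ j, x ∈ R j} (Fintype.card J * L) := by
  simpa using def_biInter Finset.univ R L fun j _ => h j

/-- Definable relations are invariant under polymorphisms. -/
lemma PPDefinable.inv {R : Set (V → A)} (h : PPDefinable Γ R) {M : Type} {f : (M → A) → A}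
    (hf : IsPol Γ f) (t : M → V → A) (ht : ∀ l, t l ∈ R) : (fun v => f fun l => t l v) ∈ R := by
  obtain ⟨L, k, φ, -, h2⟩ := h
  choose y hy using fun l => (h2 (t l)).1 (ht l)
  refine (h2 _).2 ⟨fun j => f fun l => y l j, fun a ha => ?_⟩
  have e : (Sum.elim (fun v => f fun l => t l v) fun j => f fun l => y l j) =
      fun v => f fun l => Sum.elim (t l) (y l) v := by
    funext v
    cases v <;> rfl
  rw [e]
  have := fun l => hy l a ha
  cases a with
  | rel i z => exact hf i (fun l j => Sum.elim (t l) (y l) (z j)) this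
  | eq u v => exact congrArg f (funext this)

lemma isPol_proj {M : Type} (l : M) : IsPol Γ fun z : M → A => z l := fun _ _ ht => ht l

lemma IsPol.comp {M N : Type} {f : (M → A) → A} (hf : IsPol Γ f) {g : M → (N → A) → A}
    (hg : ∀ l, IsPol Γ (g l)) : IsPol Γ fun z => f fun l => g l z :=
  fun i t ht => hf i (fun l j => g l fun l' => t l' j) fun l => hg l i t ht

variable [Finite A]

lemma pol_definable (M : Type) [Finite M] : PPDefinable Γ {f : (M → A) → A | IsPol Γ f} := by
  let J := Σ i : Fin Γ.num, {t : M → Fin (Γ.ar i) → A // ∀ l, t l ∈ Γ.rel i}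
  have : Fintype J := Fintype.ofFinite J
  refine ⟨Fintype.card J * 1, ?_⟩
  convert def_iInter (Γ := Γ)
    (fun j : J => {f : (M → A) → A | (Atom.rel j.1 fun r l => j.2.1 l r).Holds f}) 1
    fun j => def_atom _ using 1
  ext f
  exact ⟨fun h j => h j.1 j.2.1 j.2.2, fun h i t ht => h ⟨i, t, ht⟩⟩

lemma term_definable {M U : Type} [Finite M] [Finite U] (y : U → M → A) :
    PPDefinable Γ {g : U → A | ∃ f : (M → A) → A, IsPol Γ f ∧ ∀ u, g u = f (y u)} := by
  have : Fintype U := Fintype.ofFinite U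
  have : Fintype (M → A) := Fintype.ofFinite _
  obtain ⟨L, hL⟩ := pol_definable (Γ := Γ) M
  have h1 := (hL.comap (Sum.inr : (M → A) → U ⊕ (M → A))).inter
    (def_iInter (fun u : U => {x : U ⊕ (M → A) → A |
      (Atom.eq (Γ := Γ) (Sum.inl u) (Sum.inr (y u))).Holds x}) 1 fun u => def_atom _)
  exact ⟨_, h1.proj⟩

lemma uniform_bound (U : Type) [Finite U] :
    ∃ L, ∀ R : Set (U → A), PPDefinable Γ R → DefinedWithin Γ R L := by
  classical
  have : ∀ R : Set (U → A), ∃ L, PPDefinable Γ R → DefinedWithin Γ R L := by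
    intro R
    by_cases h : PPDefinable Γ R
    · obtain ⟨L, hL⟩ := h
      exact ⟨L, fun _ => hL⟩
    · exact ⟨0, fun h' => absurd h' h⟩
  choose L hL using this
  obtain ⟨B, hB⟩ := Finite.exists_le L
  exact ⟨B, fun R h => (hL R h).mono (hB R)⟩

lemma uniform_bound' (t : ℕ) :
    ∃ L, ∀ s ≤ t, ∀ R : Set (Fin s → A), PPDefinable Γ R → DefinedWithin Γ R L := by
  choose L hL using fun s : Fin (t + 1) => uniform_bound (Γ := Γ) (Fin s)
  obtain ⟨B, hB⟩ := Finite.exists_le L
  exact ⟨B, fun s hs R h => (hL ⟨s, Nat.lt_succ_of_le hs⟩ R h).mono (hB _)⟩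

omit [Finite A] in
lemma empty_bound : ∃ L, ∀ n : ℕ, PPDefinable Γ (∅ : Set (Fin n → A)) →
    DefinedWithin Γ (∅ : Set (Fin n → A)) L := by
  by_cases h : ∃ n : ℕ, PPDefinable Γ (∅ : Set (Fin n → A))
  · obtain ⟨n₀, L, hL⟩ := h
    refine ⟨Fintype.card (Fin n₀) + L, fun n _ => ?_⟩
    convert (hL.comap (Sum.inr : Fin n₀ → Fin n ⊕ Fin n₀)).proj using 1
    simp
  · exact ⟨0, fun n hn => absurd ⟨n, hn⟩ h⟩

/-- Assembly of a definition from local constraints. -/
lemma assemble {t L : ℕ}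
    (hL : ∀ s ≤ t, ∀ R : Set (Fin s → A), PPDefinable Γ R → DefinedWithin Γ R L)
    {M : Type} [Finite M] (o : M) {n : ℕ} (x : Fin n → M → A) {J : Type} [Fintype J]
    (U : J → Finset (M → A)) (hU : ∀ j, (U j).card ≤ t)
    (key : ∀ G : (M → A) → A, (∀ j, ∃ f, IsPol Γ f ∧ ∀ z ∈ U j, G z = f z) →
      ∃ f, IsPol Γ f ∧ ∀ i, G (x i) = f (x i)) :
    DefinedWithin Γ {g : Fin n → A | ∃ f : (M → A) → A, IsPol Γ f ∧ ∀ i, g i = f (x i)}
      (2 * n + Fintype.card J * (t + L)) := by
  classical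
  set Y : Finset (M → A) := Finset.univ.image x ∪ Finset.univ.biUnion U with hY
  have hx : ∀ i, x i ∈ Y := fun i => by simp [hY]
  have hUY : ∀ j, ∀ z ∈ U j, z ∈ Y := fun j z hz => by
    simp only [hY, Finset.mem_union, Finset.mem_biUnion]
    exact Or.inr ⟨j, Finset.mem_univ _, hz⟩
  have hcard : Fintype.card Y ≤ n + Fintype.card J * t := by
    rw [Fintype.card_coe]
    refine (Finset.card_union_le _ _).trans (add_le_add ?_ ?_)
    · simpa using Finset.card_image_le (s := Finset.univ) (f := x)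
    · simpa using Finset.card_biUnion_le_card_mul Finset.univ U t fun j _ => hU j
  let e : ∀ j, Fin (U j).card → (M → A) := fun j r => ((U j).equivFin.symm r : M → A)
  have he : ∀ j r, e j r ∈ U j := fun j r => ((U j).equivFin.symm r).2
  have h1 := fun j => (hL _ (hU j) _ (term_definable (Γ := Γ) (e j))).comap
    (fun r => (Sum.inr ⟨e j r, hUY j _ (he j r)⟩ : Fin n ⊕ Y))
  have h2 := (def_iInter _ L h1).inter
    (def_iInter (fun i : Fin n => {z : Fin n ⊕ Y → A |
      (Atom.eq (Γ := Γ) (Sum.inl i) (Sum.inr ⟨x i, hx i⟩)).Holds z}) 1 fun u => def_atom _)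
  refine DefinedWithin.mono ?_ (show Fintype.card Y + (Fintype.card J * L +
    Fintype.card (Fin n) * 1) ≤ _ by rw [Fintype.card_fin, mul_add]; omega)
  convert h2.proj using 1
  ext g
  simp only [Set.mem_ofPred_eq, Set.mem_inter_iff, Atom.Holds, Sum.elim_inl, Sum.elim_inr]
  constructor
  · rintro ⟨f, hf, hg⟩
    exact ⟨fun z => f z, fun j => ⟨f, hf, fun _ => rfl⟩, hg⟩
  · rintro ⟨y, hy, hg⟩
    obtain ⟨f, hf, hG⟩ := key (fun z => if h : z ∈ Y then y ⟨z, h⟩ else z o) fun j => by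
      obtain ⟨f, hf, h3⟩ := hy j
      refine ⟨f, hf, fun z hz => ?_⟩
      have := h3 ((U j).equivFin ⟨z, hz⟩)
      simp only [e, Equiv.symm_apply_apply] at this
      rw [dif_pos (hUY j z hz), this]
    refine ⟨f, hf, fun i => ?_⟩
    rw [hg i, ← hG i, dif_pos (hx i)]

end Pool.Agent.MP_6fd87c_lc.H6
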