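import Mathlib

/-! Constraint languages, pp-definitions, polymorphisms, the higher term condition. -/

namespace Pool.Agent.MP_6fd87c_lc.H6

/-- A constraint language on `A`: finitely many relations, each of finite arity. -/
structure Lang (A : Type) : Type where
  /-- the number of relations -/
  num : ℕ
  /-- the arities -/
  ar : Fin num → ℕ
  /-- the relations -/
  rel : ∀ i, Set (Fin (ar i) → A)

/-- Atomic formulas with variables in `V`: a relation of the language or an equality. -/
inductive Atom {A : Type} (Γ : Lang A) (V : Type) : Type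
  | rel (i : Fin Γ.num) (z : Fin (Γ.ar i) → V)
  | eq (u v : V)

/-- Truth of an atomic formula under the assignment `x`. -/
def Atom.Holds {A : Type} {Γ : Lang A} {V : Type} (x : V → A) : Atom Γ V → Prop
  | .rel i z => (fun j => x (z j)) ∈ Γ.rel i
  | .eq u v => x u = x v

/-- `R` is defined by a pp-formula over `Γ` with `k` quantified variables and `C` atoms, where
`k + C ≤ L`. -/
def DefinedWithin {A : Type} (Γ : Lang A) {V : Type} (R : Set (V → A)) (L : ℕ) : Prop :=
  ∃ (k : ℕ) (φ : List (Atom Γ (V ⊕ Fin k))), k + φ.length ≤ L ∧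
    ∀ x, x ∈ R ↔ ∃ y : Fin k → A, ∀ a ∈ φ, a.Holds (Sum.elim x y)

/-- `R` is pp-definable from `Γ`. -/
def PPDefinable {A : Type} (Γ : Lang A) {V : Type} (R : Set (V → A)) : Prop :=
  ∃ L, DefinedWithin Γ R L

/-- `Γ` has short pp-definitions. -/
def Short {A : Type} (Γ : Lang A) : Prop :=
  ∃ p : Polynomial ℕ, ∀ (n : ℕ) (R : Set (Fin n → A)),
    PPDefinable Γ R → DefinedWithin Γ R (p.eval n)

/-- The operation `f` preserves every relation of `Γ`. -/
def IsPol {A : Type} (Γ : Lang A) {M : Type} (f : (M → A) → A) : Prop :=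
  ∀ (i : Fin Γ.num) (t : M → Fin (Γ.ar i) → A), (∀ l, t l ∈ Γ.rel i) →
    (fun j => f fun l => t l j) ∈ Γ.rel i

/-- `Γ` has a Mal'cev polymorphism. -/
def HasMalcev {A : Type} (Γ : Lang A) : Prop :=
  ∃ q : (Fin 3 → A) → A, IsPol Γ q ∧ ∀ x y, q ![x, y, y] = x ∧ q ![y, y, x] = x

/-- A vertex of the cube spanned by the tuples `a` and `b`: the variables are split into `d + 1`
blocks by `blk`; in block `some k` take `b` if `ε k` and `a` otherwise, in the last block `none`
take `b` if `δ` and `a` otherwise. -/
def vert {A : Type} {m d : ℕ} (blk : Fin m → Option (Fin d)) (a b : Fin m → A)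
    (ε : Fin d → Bool) (δ : Bool) : Fin m → A :=
  fun l => if (blk l).elim δ ε = true then b l else a l

/-- The term condition of dimension `d + 1` for the polymorphism algebra of `Γ`: the higher
commutator `[1, ..., 1]` with `d + 1` entries is the equality relation. -/
def TermCond {A : Type} (Γ : Lang A) (d : ℕ) : Prop :=
  ∀ (m : ℕ) (f : (Fin m → A) → A), IsPol Γ f →
    ∀ (blk : Fin m → Option (Fin d)) (a b : Fin m → A),
      (∀ ε : Fin d → Bool, ε ≠ (fun _ => true) →
        f (vert blk a b ε false) = f (vert blk a b ε true)) →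
      f (vert blk a b (fun _ => true) false) = f (vert blk a b (fun _ => true) true)

/-- The polymorphism algebra of `Γ` is supernilpotent. -/
def Supernilpotent {A : Type} (Γ : Lang A) : Prop := ∃ d, TermCond Γ d

end Pool.Agent.MP_6fd87c_lc.H6
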