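import Pool.Agent.MP_6fd87c_lc.H6.Calc

/-! Short pp-definitions for supernilpotent Mal'cev algebras. -/

namespace Pool.Agent.MP_6fd87c_lc.H6

variable {A : Type} {Γ : Lang A}

lemma IsPol.three {q : (Fin 3 → A) → A} (hq : IsPol Γ q) {N : Type} {f g h : (N → A) → A}
    (hf : IsPol Γ f) (hg : IsPol Γ g) (hh : IsPol Γ h) : IsPol Γ fun z => q ![f z, g z, h z] := by
  have := hq.comp (g := ![f, g, h]) (fun l => by fin_cases l <;> assumption)
  convert this using 3
  funext l
  fin_cases l <;> rfl

lemma IsPol.minor {M N : Type} {f : (M → A) → A} (hf : IsPol Γ f) (σ : M → N) :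
    IsPol Γ fun z : N → A => f fun l => z (σ l) :=
  hf.comp fun l => isPol_proj (σ l)

/-- Amalgamation of polymorphisms along points of bounded support. -/
lemma amalg (hq : HasMalcev Γ) {M : Type} [DecidableEq M] (o : M) (G : (M → A) → A) {J : Type}
    (S : J → Finset M) (s : Finset J)
    (h : ∀ j ∈ s, ∃ f, IsPol Γ f ∧ ∀ z : M → A, (∀ l, l ∉ S j → z l = z o) → G z = f z) :
    ∃ f, IsPol Γ f ∧ ∀ j ∈ s, ∀ z : M → A, (∀ l, l ∉ S j → z l = z o) → G z = f z := by
  classical
  obtain ⟨q, hq, hq'⟩ := hq
  induction s using Finset.induction_on with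
  | empty => exact ⟨_, isPol_proj o, by simp⟩
  | insert j s hj ih =>
    obtain ⟨f, hf, h1⟩ := ih fun i hi => h i (Finset.mem_insert_of_mem hi)
    obtain ⟨g, hg, h2⟩ := h j (Finset.mem_insert_self _ _)
    let σ : M → M := fun l => if l ∈ S j then l else o
    have hσo : σ o = o := by simp [σ]
    refine ⟨_, hq.three (hg.minor σ) (hf.minor σ) hf, fun i hi z hz => ?_⟩
    rcases Finset.mem_insert.1 hi with rfl | hi
    · have e : (fun l => z (σ l)) = z := by
        funext l
        simp only [σ]
        split_ifs with hl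
        · rfl
        · exact (hz l hl).symm
      simp only [e]
      rw [(hq' _ _).1]
      exact h2 z hz
    · have e1 : G (fun l => z (σ l)) = g fun l => z (σ l) := h2 _ fun l hl => by
        simp only [hσo]; simp [σ, hl]
      have e2 : G (fun l => z (σ l)) = f fun l => z (σ l) := h1 i hi _ fun l hl => by
        simp only [hσo]
        simp only [σ]
        split_ifs with hl'
        · exact hz l hl
        · rfl
      simp only [← e1, ← e2]
      rw [(hq' _ _).2]
      exact h1 i hi z hz

/-- The last vertex of a cube is determined by the others. -/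
lemma last_vertex (hq : HasMalcev Γ) {d : ℕ} (hd : TermCond Γ d) {m : ℕ}
    {f g : (Fin m → A) → A} (hf : IsPol Γ f) (hg : IsPol Γ g) (blk : Fin m → Option (Fin d))
    (a b : Fin m → A)
    (h : ∀ ε δ, (ε ≠ (fun _ => true) ∨ δ = false) → f (vert blk a b ε δ) = g (vert blk a b ε δ)) :
    f (vert blk a b (fun _ => true) true) = g (vert blk a b (fun _ => true) true) := by
  obtain ⟨q, hq, hq'⟩ := hq
  set c := g (vert blk a b (fun _ => true) true) with hc
  have hw := hq.three (hf.minor Fin.succ) (hg.minor Fin.succ) (isPol_proj (0 : Fin (m + 1)))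
  have e1 : ∀ ε δ, (fun l => vert (Fin.cons none blk : Fin (m + 1) → Option (Fin d))
      (Fin.cons c a) (Fin.cons c b) ε δ (Fin.succ l)) = vert blk a b ε δ := by
    intro ε δ
    funext l
    simp [vert]
  have e2 : ∀ ε δ, vert (Fin.cons none blk : Fin (m + 1) → Option (Fin d))
      (Fin.cons c a) (Fin.cons c b) ε δ 0 = c := by
    intro ε δ
    simp [vert]
  have := hd (m + 1) _ hw (Fin.cons none blk) (Fin.cons c a) (Fin.cons c b) (by
    intro ε hε
    simp only [e1, e2]
    rw [h ε false (Or.inl hε), h ε true (Or.inl hε), (hq' _ _).2, (hq' _ _).2])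
  simp only [e1, e2] at this
  rw [h _ false (Or.inr rfl), (hq' _ _).2, ← hc, (hq' _ _).1] at this
  exact this.symm

/-- Keep the coordinates in `T` and from `r` on, replace the others by the coordinate `0`. -/
def res {m : ℕ} (x : Fin (m + 1) → A) (T : Finset (Fin (m + 1))) (r : ℕ) : Fin (m + 1) → A :=
  fun l => if l ∈ T ∨ r ≤ l.val then x l else x 0

lemma res_zero {m : ℕ} (x : Fin (m + 1) → A) (T : Finset (Fin (m + 1))) (r : ℕ) :
    res x T r 0 = x 0 := by
  simp [res]

lemma exists_cover {M : Type} [DecidableEq M] (o : M) {k : ℕ} (T : Finset M) (hT : T.card ≤ k) :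
    ∃ s : Fin k → M, T ⊆ Finset.univ.image s := by
  refine ⟨fun i => if h : i.val < T.card then (T.equivFin.symm ⟨i, h⟩ : M) else o, fun l hl => ?_⟩
  refine Finset.mem_image.2 ⟨⟨(T.equivFin ⟨l, hl⟩).val, (T.equivFin ⟨l, hl⟩).2.trans_le hT⟩,
    Finset.mem_univ _, ?_⟩
  simp

lemma propagate (hq : HasMalcev Γ) {d : ℕ} (hd : TermCond Γ d) {m : ℕ}
    (G f : (Fin (m + 1) → A) → A) (hf : IsPol Γ f) (x : Fin (m + 1) → A)
    (h0 : ∀ T : Finset (Fin (m + 1)), T.card ≤ d → G (res x T (m + 1)) = f (res x T (m + 1)))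
    (h1 : ∀ (T : Finset (Fin (m + 1))) (r : ℕ), T.card ≤ d + 1 → r ≤ m + 1 →
      ∃ g, IsPol Γ g ∧ ∀ T' ⊆ T, G (res x T' r) = g (res x T' r)) :
    G x = f x := by
  classical
  have main : ∀ r ≤ m + 1, ∀ T : Finset (Fin (m + 1)), T.card ≤ d →
      G (res x T r) = f (res x T r) := by
    intro r hr
    induction hr using Nat.decreasingInduction with
    | self => exact h0
    | of_succ r hr ih =>
      intro T hT
      set j : Fin (m + 1) := ⟨r, hr⟩ with hj
      have e0 : res x T r = res x (insert j T) (r + 1) := by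
        funext l
        have : (l ∈ T ∨ r ≤ l.val) ↔ (l ∈ insert j T ∨ r + 1 ≤ l.val) := by
          rw [Finset.mem_insert, Fin.ext_iff]
          simp only [hj]
          by_cases h : l ∈ T
          · simp [h]
          · simp only [h, false_or, or_false]; omega
        simp only [res, this]
      rw [e0]
      by_cases hc : (insert j T).card ≤ d
      · exact ih _ hc
      have hjT : j ∉ T := fun h => hc (by rwa [Finset.insert_eq_of_mem h])
      have hTd : T.card = d := by
        rw [Finset.card_insert_of_notMem hjT] at hc; omega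
      obtain ⟨g, hg, h2⟩ := h1 (insert j T) (r + 1)
        (by rw [Finset.card_insert_of_notMem hjT]; omega) hr
      let e : T ≃ Fin d := T.equivFinOfCardEq hTd
      let blk : Fin (m + 1) → Option (Fin d) := fun l =>
        if h : l ∈ T then some (e ⟨l, h⟩) else none
      let W : (Fin d → Bool) → Bool → Finset (Fin (m + 1)) := fun ε δ =>
        (insert j T).filter fun l => (blk l).elim δ ε = true
      have hv : ∀ ε δ, vert blk (res x ∅ (r + 1)) (res x (insert j T) (r + 1)) ε δ =
          res x (W ε δ) (r + 1) := by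
        intro ε δ
        funext l
        simp only [vert, res, W, Finset.mem_filter, Finset.notMem_empty, false_or]
        by_cases h3 : (blk l).elim δ ε = true <;> simp [h3]
      have hW : ∀ ε δ, W ε δ ⊆ insert j T := fun ε δ => Finset.filter_subset _ _
      have htop : W (fun _ => true) true = insert j T := by
        refine Finset.filter_true_of_mem fun l _ => ?_
        cases blk l <;> rfl
      have hsmall : ∀ ε δ, (ε ≠ (fun _ => true) ∨ δ = false) → (W ε δ).card ≤ d := by
        intro ε δ h
        have : ∃ l ∈ insert j T, l ∉ W ε δ := by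
          rcases h with h | h
          · obtain ⟨k, hk⟩ := Function.ne_iff.1 h
            refine ⟨e.symm k, Finset.mem_insert_of_mem (e.symm k).2, ?_⟩
            simp [W, blk, hk]
          · exact ⟨j, Finset.mem_insert_self _ _, by simp [W, blk, hjT, h]⟩
        obtain ⟨l, hl, hl'⟩ := this
        have := Finset.card_lt_card (Finset.ssubset_iff_of_subset (hW ε δ) |>.2 ⟨l, hl, hl'⟩)
        rw [Finset.card_insert_of_notMem hjT] at this
        omega
      have := last_vertex hq hd hf hg blk (res x ∅ (r + 1)) (res x (insert j T) (r + 1))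
        fun ε δ h => by rw [hv, ← ih _ (hsmall ε δ h), h2 _ (hW ε δ)]
      rw [hv, htop] at this
      rw [this, h2 _ le_rfl]
  have := main 0 (Nat.zero_le _) ∅ (by simp)
  have e : res x ∅ 0 = x := by
    funext l
    simp [res]
  rwa [e] at this

/-- Compact representations. -/
lemma generators [Fintype A] (hq : HasMalcev Γ) {n : ℕ} {R : Set (Fin n → A)}
    (hR : PPDefinable Γ R) (hne : R.Nonempty) :
    ∃ x : Fin n → Fin (2 * Fintype.card A ^ 2 * n + 1) → A,
      R = {g | ∃ f, IsPol Γ f ∧ ∀ i, g i = f (x i)} := by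
  classical
  obtain ⟨r₀, hr₀⟩ := hne
  obtain ⟨q, hq, hq'⟩ := hq
  have h1 : ∀ p : Fin n × A × A, ∃ u : Bool → Fin n → A, (∀ c, u c ∈ R) ∧
      ((∃ v ∈ R, ∃ w ∈ R, (∀ i < p.1, v i = w i) ∧ v p.1 = p.2.1 ∧ w p.1 = p.2.2) →
        (∀ i < p.1, u false i = u true i) ∧ u false p.1 = p.2.1 ∧ u true p.1 = p.2.2) := by
    intro p
    by_cases h : ∃ v ∈ R, ∃ w ∈ R, (∀ i < p.1, v i = w i) ∧ v p.1 = p.2.1 ∧ w p.1 = p.2.2
    · obtain ⟨v, hv, w, hw, h⟩ := h
      exact ⟨fun c => if c then w else v, fun c => by cases c <;> simpa, fun _ => by simpa using h⟩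
    · exact ⟨fun _ => r₀, fun _ => hr₀, fun h' => absurd h' h⟩
  choose u hu hu' using h1
  let e : Option ((Fin n × A × A) × Bool) ≃ Fin (2 * Fintype.card A ^ 2 * n + 1) :=
    Fintype.equivFinOfCardEq (by simp; ring)
  let gen : Option ((Fin n × A × A) × Bool) → Fin n → A := fun o => o.elim r₀ fun p => u p.1 p.2
  have hgen : ∀ o, gen o ∈ R := fun o => by
    cases o with
    | none => exact hr₀
    | some p => exact hu _ _
  refine ⟨fun i l => gen (e.symm l) i, Set.Subset.antisymm (fun r hr => ?_) ?_⟩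
  · have main : ∀ k ≤ n, ∃ f, IsPol Γ f ∧ ∀ i : Fin n, i.val < k →
        r i = f fun l => gen (e.symm l) i := by
      intro k hk
      induction k with
      | zero => exact ⟨_, isPol_proj 0, by simp⟩
      | succ k ih =>
        obtain ⟨f, hf, h2⟩ := ih (Nat.le_of_succ_le hk)
        have hv := hR.inv hf (fun l => gen (e.symm l)) fun l => hgen _
        set p : Fin n × A × A := (⟨k, hk⟩, f (fun l => gen (e.symm l) ⟨k, hk⟩), r ⟨k, hk⟩) with hp
        obtain ⟨k1, k2, k3⟩ := hu' p ⟨_, hv, r, hr, fun i hi => (h2 i hi).symm, rfl, rfl⟩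
        refine ⟨_, hq.three hf (isPol_proj (e (some (p, false)))) (isPol_proj (e (some (p, true)))),
          fun i hi => ?_⟩
        simp only [Equiv.symm_apply_apply, gen, Option.elim]
        rcases Nat.lt_succ_iff_lt_or_eq.1 hi with hi | hi
        · rw [k1 i hi, (hq' _ _).1]
          exact h2 i hi
        · obtain rfl : i = ⟨k, hk⟩ := Fin.ext hi
          rw [k2, k3]
          exact ((hq' _ _).2).symm
    obtain ⟨f, hf, h2⟩ := main n le_rfl
    exact ⟨f, hf, fun i => h2 i i.2⟩
  · rintro g ⟨f, hf, hg⟩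
    have := hR.inv hf (fun l => gen (e.symm l)) fun l => hgen _
    rwa [← funext hg] at this

theorem short_of_supernilpotent [Finite A] (hq : HasMalcev Γ) (hs : Supernilpotent Γ) :
    Short Γ := by
  classical
  have : Fintype A := Fintype.ofFinite A
  obtain ⟨d, hd⟩ := hs
  set t := Fintype.card A ^ (d + 1) + 2 ^ (d + 1) with ht
  obtain ⟨L, hL⟩ := uniform_bound' (Γ := Γ) t
  obtain ⟨L₀, hL₀⟩ := empty_bound (Γ := Γ)
  set c := 2 * Fintype.card A ^ 2 with hc
  refine ⟨Polynomial.C L₀ + 2 * Polynomial.X + ((Polynomial.C c * Polynomial.X + 1) ^ d +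
    Polynomial.X * ((Polynomial.C c * Polynomial.X + 1) ^ (d + 1) *
      (Polynomial.C c * Polynomial.X + 2))) * Polynomial.C (t + L), fun n R hR => ?_⟩
  simp only [Polynomial.eval_add, Polynomial.eval_mul, Polynomial.eval_pow, Polynomial.eval_C,
    Polynomial.eval_X, Polynomial.eval_one, Polynomial.eval_ofNat]
  rcases R.eq_empty_or_nonempty with rfl | hne
  · exact (hL₀ n hR).mono (by omega)
  obtain ⟨m, hm⟩ : ∃ m, m = c * n := ⟨_, rfl⟩
  have hgen := generators hq hR hne
  rw [← hc, ← hm] at hgen
  rw [← hm]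
  obtain ⟨x, rfl⟩ := hgen
  let J := (Fin d → Fin (m + 1)) ⊕ (Fin n × (Fin (d + 1) → Fin (m + 1)) × Fin (m + 2))
  let U : J → Finset (Fin (m + 1) → A) := Sum.elim
    (fun s => Finset.univ.filter fun z => ∀ l, l ∉ Finset.univ.image s → z l = z 0)
    (fun p => (Finset.univ.image p.2.1).powerset.image fun T => res (x p.1) T p.2.2)
  have hU : ∀ j, (U j).card ≤ t := by
    rintro (s | p)
    · refine le_trans ?_ (Nat.le_add_right _ _)
      have := Finset.card_le_card_of_injOn (s := U (Sum.inl s)) (t := Finset.univ)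
        (fun z => (z 0, fun k => z (s k))) (fun _ _ => Finset.mem_univ _) (by
          intro z hz z' hz' h
          simp only [U, Sum.elim_inl, Finset.coe_filter, Finset.mem_univ, true_and,
            Set.mem_ofPred_eq] at hz hz'
          obtain ⟨h1, h2⟩ := Prod.ext_iff.1 h
          funext l
          by_cases hl : l ∈ Finset.univ.image s
          · obtain ⟨k, -, rfl⟩ := Finset.mem_image.1 hl
            exact congrFun h2 k
          · rw [hz l hl, hz' l hl]; exact h1)
      simpa [pow_succ'] using this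
    · refine le_trans ?_ (Nat.le_add_left _ _)
      refine Finset.card_image_le.trans ?_
      rw [Finset.card_powerset]
      exact Nat.pow_le_pow_right two_pos (by simpa using Finset.card_image_le (s := Finset.univ) (f := p.2.1))
  have := assemble hL (0 : Fin (m + 1)) x U hU fun G hG => by
    obtain ⟨f, hf, h1⟩ := amalg hq (0 : Fin (m + 1)) G
      (fun s : Fin d → Fin (m + 1) => Finset.univ.image s) Finset.univ fun s _ => by
        obtain ⟨f, hf, h⟩ := hG (Sum.inl s)
        exact ⟨f, hf, fun z hz => h z (by simpa [U] using hz)⟩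
    refine ⟨f, hf, fun i => propagate hq hd G f hf (x i) (fun T hT => ?_) fun T r hT hr => ?_⟩
    · obtain ⟨s, hs⟩ := exists_cover 0 T hT
      refine h1 s (Finset.mem_univ _) _ fun l hl => ?_
      have h2 : l ∉ T := fun h => hl (hs h)
      have h3 : ¬ m + 1 ≤ l.val := not_le.2 l.2
      rw [res_zero]
      simp only [res, h2, h3, or_self, if_false]
    · obtain ⟨s, hs⟩ := exists_cover 0 T hT
      obtain ⟨g, hg, h⟩ := hG (Sum.inr (i, s, ⟨r, Nat.lt_succ_of_le hr⟩))
      exact ⟨g, hg, fun T' hT' => h _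
        (Finset.mem_image.2 ⟨T', Finset.mem_powerset.2 (hT'.trans hs), rfl⟩)⟩
  refine this.mono ?_
  simp only [J, Fintype.card_sum, Fintype.card_prod, Fintype.card_fun, Fintype.card_fin]
  omega

end Pool.Agent.MP_6fd87c_lc.H6
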